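import Pool.Agent.H57.BD.Stmts

set_option autoImplicit false

namespace Pool.BD

namespace COLD

/-- The overlap graph of the spans. -/
def O {ι : Type} (s r : ι → ℕ) : SimpleGraph ι where
  Adj i j := (s i < s j ∧ s j < r i ∧ r i < r j) ∨ (s j < s i ∧ s i < r j ∧ r j < r i)
  symm := ⟨fun i j h => by
    rcases h with h | h
    · exact Or.inr h
    · exact Or.inl h⟩
  loopless := ⟨fun i h => by
    rcases h with h | h
    · exact absurd h.1 (lt_irrefl _)
    · exact absurd h.1 (lt_irrefl _)⟩

theorem O_adj {ι : Type} (s r : ι → ℕ) (i j : ι) : (O s r).Adj i j ↔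
    ((s i < s j ∧ s j < r i ∧ r i < r j) ∨ (s j < s i ∧ s i < r j ∧ r j < r i)) := Iff.rfl

theorem dist_step {ι : Type} (G : SimpleGraph ι) (a x y : ι) (h : G.Reachable a y)
    (hxy : G.Adj y x) : G.dist a x ≤ G.dist a y + 1 := by
  obtain ⟨p, hp⟩ := h.exists_walk_length_eq_dist
  have := G.dist_le (p.concat hxy)
  rw [SimpleGraph.Walk.length_concat] at this
  omega

theorem exists_pred {ι : Type} (G : SimpleGraph ι) (a x : ι) (n : ℕ) (h : G.Reachable a x)
    (hn : G.dist a x = n + 1) : ∃ y, G.Adj y x ∧ G.Reachable a y ∧ G.dist a y = n := by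
  obtain ⟨p, hp⟩ := h.exists_walk_length_eq_dist
  have hp' : p.reverse.length = n + 1 := by
    rw [SimpleGraph.Walk.length_reverse, hp, hn]
  generalize p.reverse = q at hp'
  cases q with
  | nil => simp at hp'
  | @cons _ y _ hadj q =>
    have hq : q.length = n := by
      rw [SimpleGraph.Walk.length_cons] at hp'
      omega
    refine ⟨y, hadj.symm, ⟨q.reverse⟩, ?_⟩
    have h1 : G.dist a y ≤ n := by
      have := G.dist_le q.reverse
      rw [SimpleGraph.Walk.length_reverse, hq] at this
      exact this
    have h2 := dist_step G a x y ⟨q.reverse⟩ hadj.symm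
    omega

theorem inside {ι : Type} (s t r : ι → ℕ) (hI : Items ι s t r) (a : ι)
    (ha : ∀ y, (O s r).Reachable a y → s a ≤ s y) (z : ι) (hz : (O s r).Reachable a z) :
    ∀ m w, (O s r).Reachable a w → (O s r).dist a w = m → s z < s w → r w < r z →
      (O s r).dist a z ≤ m := by
  intro m
  induction m with
  | zero =>
    intro w hw hd h1 h2
    have : a = w := (hw.dist_eq_zero_iff).mp hd
    subst this
    have := ha z hz
    omega
  | succ m ih =>
    intro w hw hd h1 h2
    obtain ⟨w', hadj, hw', hd'⟩ := exists_pred _ a w m hw hd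
    have hstz := hI.st z
    have htrz := hI.tr z
    have hstw := hI.st w
    have htrw := hI.tr w
    have hstw' := hI.st w'
    have htrw' := hI.tr w'
    rw [O_adj] at hadj
    by_cases hin : s z < s w' ∧ r w' < r z
    · exact (ih w' hw' hd' hin.1 hin.2).trans (Nat.le_succ _)
    by_cases heq : w' = z
    · subst heq
      omega
    have hs : s w' ≠ s z := fun h => heq (hI.sinj h)
    have hr : r w' ≠ r z := fun h => heq (hI.rinj h)
    have hadj2 : (O s r).Adj w' z := by
      rw [O_adj]
      omega
    have := dist_step _ a z w' hw' hadj2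
    omega

end COLD

open COLD in
theorem cold (hstep : STEPStmt) : COLDStmt := by
  classical
  intro ι _ s t r hI
  have hroot : ∀ x, ∃ y, (O s r).Reachable x y ∧ ∀ z, (O s r).Reachable x z → s y ≤ s z := by
    intro x
    have hfin : Set.Finite {y | (O s r).Reachable x y} := Set.toFinite _
    obtain ⟨y, hy, hmin⟩ := Set.exists_min_image _ s hfin ⟨x, SimpleGraph.Reachable.refl _⟩
    exact ⟨y, hy, fun z hz => hmin z hz⟩
  choose root hr1 hr2 using hroot
  have hrooteq : ∀ x y, (O s r).Reachable x y → root x = root y := by
    intro x y hxy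
    have h1 := hr2 x (root y) (hxy.trans (hr1 y))
    have h2 := hr2 y (root x) (hxy.symm.trans (hr1 x))
    exact hI.sinj (le_antisymm h1 h2)
  have hrr : ∀ x, ∀ y, (O s r).Reachable (root x) y → s (root x) ≤ s y := by
    intro x y hy
    exact hr2 x y ((hr1 x).trans hy)
  have hrid : ∀ x, (O s r).Reachable (root x) x := fun x => (hr1 x).symm
  set lev : ι → ℕ := fun x => (O s r).dist (root x) x with hlev
  have hlevdef : ∀ x, lev x = (O s r).dist (root x) x := fun x => rfl
  -- doubled items
  have hI2 : Items ι (fun i => 2 * s i) (fun i => 2 * t i) (fun i => 2 * r i) := by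
    refine ⟨?_, ?_, ?_, ?_, ?_, ?_, ?_, ?_, ?_, ?_⟩
    · intro i; have := hI.st i; omega
    · intro i; have := hI.tr i; omega
    · intro i j h; exact hI.sinj (by simp only at h; omega)
    · intro i j h; exact hI.tinj (by simp only at h; omega)
    · intro i j h; exact hI.rinj (by simp only at h; omega)
    · intro i j h; exact hI.nst i j (by omega)
    · intro i j h; exact hI.nsr i j (by omega)
    · intro i j h; exact hI.ntr i j (by omega)
    · intro i j h1 h2 h3
      exact hI.U i j (by omega) (by omega)
        (by omega)
    · intro i j h1 h2 h3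
      exact hI.V i j (by omega) (by omega)
        (by omega)
  -- the steps
  have key : ∀ (ρ : ι) (n : ℕ), ∃ col : ι → Fin 3 × Fin 3 × Fin 3 × Fin 2,
      ∀ x, root x = ρ → lev x = n + 1 → ∀ y, root y = ρ → lev y = n + 1 →
      t x < s y → s y < r x → r x < t y → col x ≠ col y := by
    intro ρ n
    by_cases hρ : root ρ = ρ
    swap
    · -- nobody has this root
      refine ⟨fun _ => (0, 0, 0, 0), fun x hx => ?_⟩
      exfalso
      apply hρ
      rw [← hx]
      exact (hrooteq x (root x) (hr1 x)).symm
    have hmin : ∀ y, (O s r).Reachable ρ y → s ρ ≤ s y := by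
      have := hrr ρ
      rw [hρ] at this
      exact this
    have hreach : ∀ x, root x = ρ → (O s r).Reachable ρ x := by
      intro x hx
      rw [← hx]
      exact hrid x
    have hlv : ∀ x, root x = ρ → lev x = (O s r).dist ρ x := by
      intro x hx
      rw [hlevdef, hx]
    have hback : ∀ y, (O s r).Reachable ρ y → root y = ρ := by
      intro y hy
      rw [← hrooteq ρ y hy, hρ]
    set W : Set ι := {x | root x = ρ ∧ lev x = n} with hW
    set Z : Set ι := {x | root x = ρ ∧ lev x = n + 1} with hZ
    set e : Set ℕ := {p | p = 2 * s ρ + 1 ∨ ∃ u, root u = ρ ∧ lev u < n ∧ (p = 2 * s u ∨ p = 2 * r u)}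
      with he
    obtain ⟨col, hcol⟩ := hstep ι (fun i => 2 * s i) (fun i => 2 * t i) (fun i => 2 * r i) hI2 W Z e
      (by
        intro w hw
        obtain ⟨hw1, hw2⟩ := hw
        rcases Nat.eq_zero_or_pos n with hn | hn
        · rw [hn, hlv w hw1] at hw2
          have hρw : ρ = w := ((hreach w hw1).dist_eq_zero_iff).mp hw2
          refine Or.inl ⟨2 * s ρ + 1, Or.inl rfl, ?_⟩
          rw [hρw]
          have := hI.st w
          omega
        · obtain ⟨m, rfl⟩ : ∃ m, n = m + 1 := ⟨n - 1, by omega⟩
          rw [hlv w hw1] at hw2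
          obtain ⟨u, hadj, hu, hdu⟩ := exists_pred _ ρ w m (hreach w hw1) hw2
          have hur := hback u hu
          have hlu : lev u = m := by rw [hlv u hur]; exact hdu
          have hes : 2 * s u ∈ e := Or.inr ⟨u, hur, by omega, Or.inl rfl⟩
          have her : 2 * r u ∈ e := Or.inr ⟨u, hur, by omega, Or.inr rfl⟩
          rw [O_adj] at hadj
          have hst := hI.st w
          have htr := hI.tr w
          rcases hadj with h | h
          · -- s u < s w < r u < r w
            have hne := hI.ntr w u
            rcases lt_or_gt_of_ne hne with h' | h'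
            · exact Or.inr ⟨2 * r u, her, by omega⟩
            · exact Or.inl ⟨2 * r u, her, by omega⟩
          · -- s w < s u < r w < r u
            have hne := hI.nst u w
            rcases lt_or_gt_of_ne hne with h' | h'
            · exact Or.inl ⟨2 * s u, hes, by omega⟩
            · exact Or.inr ⟨2 * s u, hes, by omega⟩)
      (by
        intro z hz p hp
        obtain ⟨hz1, hz2⟩ := hz
        have hzne : z ≠ ρ := by
          intro h
          have h2 := hz2
          rw [hlv z hz1, h, SimpleGraph.dist_self] at h2
          omega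
        have hzs : s ρ < s z := by
          refine lt_of_le_of_ne (hmin z (hreach z hz1)) (fun h => hzne (hI.sinj h.symm))
        rcases hp with hp | ⟨u, hu1, hu2, hp⟩
        · rw [hp]
          omega
        · have hst := hI.st z
          have htr := hI.tr z
          have hstu := hI.st u
          have htru := hI.tr u
          have hne : u ≠ z := by
            intro h
            rw [h] at hu2
            omega
          have hs : s u ≠ s z := fun h => hne (hI.sinj h)
          have hr : r u ≠ r z := fun h => hne (hI.rinj h)
          intro hcon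
          have hnadj : ¬ (O s r).Adj u z := by
            intro hadj
            have := dist_step _ ρ z u (hreach u hu1) hadj
            rw [← hlv z hz1, ← hlv u hu1] at this
            omega
          have hnin : ¬ (s z < s u ∧ r u < r z) := by
            intro hin
            have := inside s t r hI ρ hmin z (hreach z hz1) (lev u) u (hreach u hu1)
              (hlv u hu1).symm hin.1 hin.2
            rw [← hlv z hz1] at this
            omega
          rw [O_adj] at hnadj
          rcases hp with hp | hp
          · omega
          · omega)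
      (by
        intro z hz
        obtain ⟨hz1, hz2⟩ := hz
        rw [hlv z hz1] at hz2
        obtain ⟨u, hadj, hu, hdu⟩ := exists_pred _ ρ z n (hreach z hz1) hz2
        have hur := hback u hu
        have hlu : lev u = n := by rw [hlv u hur]; exact hdu
        refine ⟨u, ⟨hur, hlu⟩, ?_⟩
        rw [O_adj] at hadj
        omega)
    refine ⟨col, fun x hx1 hx2 y hy1 hy2 h1 h2 h3 => ?_⟩
    exact hcol x ⟨hx1, hx2⟩ y ⟨hy1, hy2⟩ (by omega) (by omega)
      (by omega)
  choose col hcol using key
  have hcard : Fintype.card (Fin 2 × Fin 3 × Fin 3 × Fin 3 × Fin 2) = 108 := by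
    simp [Fintype.card_prod]
  let enc := Fintype.equivFinOfCardEq hcard
  refine ⟨fun x => enc (⟨lev x % 2, Nat.mod_lt _ (by norm_num)⟩, col (root x) (lev x - 1) x), ?_⟩
  intro x y h1 h2 h3 heq
  have heq2 := enc.injective heq
  rw [Prod.mk.injEq, Fin.mk.injEq] at heq2
  obtain ⟨hpar, hc⟩ := heq2
  have hst := hI.st x
  have htr := hI.tr y
  have hadj : (O s r).Adj x y := by
    rw [O_adj]
    omega
  have hrxy : root x = root y := hrooteq x y hadj.reachable
  have hd1 : lev y ≤ lev x + 1 := by
    have := dist_step _ (root x) y x (hrid x) hadj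
    rw [hlevdef y, ← hrxy]
    exact this
  have hd2 : lev x ≤ lev y + 1 := by
    have := dist_step _ (root y) x y (hrid y) hadj.symm
    rw [hlevdef x, hrxy]
    exact this
  have hlxy : lev x = lev y := by omega
  rcases Nat.eq_zero_or_pos (lev x) with h0 | h0
  · have hx0 : root x = x := by
      have : (O s r).dist (root x) x = 0 := h0
      exact ((hrid x).dist_eq_zero_iff).mp this
    have hy0 : root y = y := by
      have : (O s r).dist (root y) y = 0 := by
        have := h0
        rw [hlxy] at this
        exact this
      exact ((hrid y).dist_eq_zero_iff).mp this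
    rw [hx0, hy0] at hrxy
    subst hrxy
    omega
  · rw [← hlxy, ← hrxy] at hc
    exact hcol (root x) (lev x - 1) x rfl (by omega) y hrxy.symm (by omega) h1 h2 h3 hc

end Pool.BD
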