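import Pool.Agent.H57.BD.Stmts

set_option autoImplicit false

namespace Pool.BD

namespace LFT

theorem exists_x (E S : Finset ℕ) (v : ℕ) (hS : S ⊆ E) (hv : v ∈ S) : ∃ x, XPt E S v x := by
  classical
  set A : Finset ℕ := E.filter (fun x' => v ≤ x' ∧ ∀ e ∈ E, v ≤ e → e ≤ x' → e ∈ S) with hA
  have hne : A.Nonempty := ⟨v, by
    rw [hA, Finset.mem_filter]
    refine ⟨hS hv, le_refl _, fun e _ h1 h2 => ?_⟩
    have : e = v := by omega
    rw [this]; exact hv⟩
  refine ⟨A.max' hne, ?_⟩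
  have hm := A.max'_mem hne
  have hm2 : A.max' hne ∈ E ∧ v ≤ A.max' hne ∧ ∀ e ∈ E, v ≤ e → e ≤ A.max' hne → e ∈ S := by
    exact Finset.mem_filter.mp hm
  refine ⟨hm2.2.2 _ hm2.1 hm2.2.1 le_rfl, hm2.2.1, hm2.2.2, ?_⟩
  intro x' h1 h2 h3
  exact Finset.le_max' _ _ (Finset.mem_filter.mpr ⟨h2, h1, h3⟩)

end LFT

theorem lft : LFTStmt := by
  classical
  intro 𝒮 vL vR hstar hlf
  set E : Finset ℕ := 𝒮.biUnion id with hE
  have hsub : ∀ S ∈ 𝒮, S ⊆ E := by
    intro S hS u hu
    rw [hE, Finset.mem_biUnion]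
    exact ⟨S, hS, hu⟩
  have hx : ∀ S, ∃ x, S ∈ 𝒮 → XPt E S (vL S) x := by
    intro S
    by_cases hS : S ∈ 𝒮
    · obtain ⟨x, hx⟩ := LFT.exists_x E S (vL S) (hsub S hS) (hlf.memL S hS)
      exact ⟨x, fun _ => hx⟩
    · exact ⟨0, fun h => absurd h hS⟩
  choose x hx using hx
  -- the constants
  set cd : Finset ℕ → ℕ := fun S => (S.filter (fun u => vL S ≤ u)).card with hcd
  obtain ⟨B1, hB1⟩ : ∃ B1 : ℕ, ∀ S ∈ 𝒮, vL S < B1 ∧ cd S < B1 := by
    refine ⟨𝒮.sup (fun S => vL S + cd S) + 1, fun S hS => ?_⟩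
    have := Finset.le_sup (f := fun S => vL S + cd S) hS
    omega
  have hcdpos : ∀ S ∈ 𝒮, 0 < cd S := by
    intro S hS
    apply Finset.card_pos.mpr
    exact ⟨vL S, by rw [Finset.mem_filter]; exact ⟨hlf.memL S hS, le_rfl⟩⟩
  set K : Finset ℕ → ℕ := fun S => vL S * B1 + cd S with hK
  by_cases hne : 𝒮.Nonempty
  swap
  · -- empty family
    rw [Finset.not_nonempty_iff_eq_empty] at hne
    refine ⟨x, fun _ => 0, fun _ => 0, 1, one_pos, ?_, ?_, ?_, ?_, ?_, ?_⟩
    · intro S hS; rw [hne] at hS; exact absurd hS (Finset.notMem_empty _)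
    · intro S hS; rw [hne] at hS; exact absurd hS (Finset.notMem_empty _)
    · intro S hS; rw [hne] at hS; exact absurd hS (Finset.notMem_empty _)
    · intro c; exact Nat.zero_le _
    · intro S hS; rw [hne] at hS; exact absurd hS (Finset.notMem_empty _)
    · intro c _ c' _ _ h; exact absurd h (lt_irrefl _)
  have hB1pos : 0 < B1 := by
    obtain ⟨S, hS⟩ := hne
    have := (hB1 S hS).1
    omega
  have hKB : ∀ S ∈ 𝒮, K S < B1 * B1 := by
    intro S hS
    have h1 := (hB1 S hS).1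
    have h2 := (hB1 S hS).2
    have : (vL S + 1) * B1 ≤ B1 * B1 := Nat.mul_le_mul_right _ h1
    have h3 : K S = vL S * B1 + cd S := rfl
    rw [h3]
    nlinarith
  have hKpos : ∀ S ∈ 𝒮, 0 < K S := by
    intro S hS
    have := hcdpos S hS
    have h3 : K S = vL S * B1 + cd S := rfl
    omega
  have hKv : ∀ S ∈ 𝒮, ∀ S' ∈ 𝒮, K S ≤ K S' → vL S ≤ vL S' := by
    intro S hS S' hS' h
    by_contra hc
    push Not at hc
    have h1 : (vL S' + 1) * B1 ≤ vL S * B1 := Nat.mul_le_mul_right _ hc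
    have h2 := (hB1 S' hS').2
    have h3 : K S = vL S * B1 + cd S := rfl
    have h4 : K S' = vL S' * B1 + cd S' := rfl
    have h5 : (vL S' + 1) * B1 = vL S' * B1 + B1 := by ring
    omega
  have hKlf : ∀ S ∈ 𝒮, ∀ S' ∈ 𝒮, ∀ c ∈ S, c ∉ S' → vL S ≤ c → vL S' ≤ c → K S' < K S := by
    intro S hS S' hS' c hc hc' h1 h2
    have h3 : K S = vL S * B1 + cd S := rfl
    have h4 : K S' = vL S' * B1 + cd S' := rfl
    rcases hlf.lf1 S hS S' hS' c hc hc' h1 h2 with h | ⟨h, h'⟩
    · have h5 : (vL S' + 1) * B1 ≤ vL S * B1 := Nat.mul_le_mul_right _ h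
      have h6 := (hB1 S' hS').2
      have h7 : (vL S' + 1) * B1 = vL S' * B1 + B1 := by ring
      omega
    · have h8 : cd S' < cd S := h'
      rw [h3, h4, h]
      omega
  have hmono : ∀ S ∈ 𝒮, ∀ S' ∈ 𝒮, K S' ≤ K S → x S' ≤ x S := by
    intro S hS S' hS' h
    by_contra hc
    push Not at hc
    have hv := hKv S' hS' S hS h
    have hX := hx S hS
    have hX' := hx S' hS'
    have : ¬ ∀ e ∈ E, vL S ≤ e → e ≤ x S' → e ∈ S := by
      intro hall
      have := hX.2.2.2 (x S') (by have := hX.2.1; omega) (hsub S' hS' hX'.1) hall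
      omega
    push Not at this
    obtain ⟨e, he, h1, h2, h3⟩ := this
    have he' : e ∈ S' := hX'.2.2.1 e he (by omega) h2
    have := hKlf S' hS' S hS e he' h3 (by omega) h1
    omega
  set B : ℕ := B1 * B1 with hB
  have hBpos : 0 < B := Nat.mul_pos hB1pos hB1pos
  set P : Finset ℕ → ℕ := fun S => x S * B + K S with hP
  have hPdef : ∀ S, P S = x S * B + K S := fun S => rfl
  have hPK : ∀ S ∈ 𝒮, ∀ S' ∈ 𝒮, P S < P S' → K S < K S' := by
    intro S hS S' hS' h
    by_contra hc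
    push Not at hc
    have h1 := hmono S hS S' hS' hc
    have h2 : x S' * B ≤ x S * B := Nat.mul_le_mul_right _ h1
    rw [hPdef, hPdef] at h
    omega
  have hKP : ∀ S ∈ 𝒮, ∀ S' ∈ 𝒮, K S < K S' → P S < P S' := by
    intro S hS S' hS' h
    have h1 := hmono S' hS' S hS h.le
    have h2 : x S * B ≤ x S' * B := Nat.mul_le_mul_right _ h1
    rw [hPdef, hPdef]
    omega
  have hPlt : ∀ S ∈ 𝒮, ∀ c, P S < c * B ↔ x S < c := by
    intro S hS c
    have h1 := hKB S hS
    rw [hPdef]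
    constructor
    · intro h
      by_contra hc
      push Not at hc
      have : c * B ≤ x S * B := Nat.mul_le_mul_right _ hc
      omega
    · intro h
      have : (x S + 1) * B ≤ c * B := Nat.mul_le_mul_right _ h
      have h7 : (x S + 1) * B = x S * B + B := by ring
      omega
  have hPle : ∀ S ∈ 𝒮, ∀ c, P S ≤ c * B ↔ x S < c := by
    intro S hS c
    constructor
    · intro h
      by_contra hc
      push Not at hc
      have : c * B ≤ x S * B := Nat.mul_le_mul_right _ hc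
      have h2 := hKpos S hS
      rw [hPdef] at h
      omega
    · intro h
      exact ((hPlt S hS c).mpr h).le
  -- the starting points
  set A : ℕ → Finset ℕ := fun c =>
    insert (c * B) ((𝒮.filter (fun S => x S < c ∧ c ∈ S)).image P) with hA
  have hAne : ∀ c, (A c).Nonempty := fun c => ⟨c * B, Finset.mem_insert_self _ _⟩
  set s : ℕ → ℕ := fun c => (A c).min' (hAne c) with hs
  have hsle : ∀ c, s c ≤ c * B := fun c => Finset.min'_le _ _ (Finset.mem_insert_self _ _)
  have hsP : ∀ S ∈ 𝒮, ∀ c, x S < c → c ∈ S → s c ≤ P S := by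
    intro S hS c h1 h2
    apply Finset.min'_le
    apply Finset.mem_insert_of_mem
    apply Finset.mem_image_of_mem
    rw [Finset.mem_filter]
    exact ⟨hS, h1, h2⟩
  have hsex : ∀ c, s c < c * B → ∃ S ∈ 𝒮, x S < c ∧ c ∈ S ∧ s c = P S := by
    intro c hc
    have hm : s c ∈ A c := Finset.min'_mem _ _
    rw [hA, Finset.mem_insert] at hm
    rcases hm with h | h
    · omega
    · rw [Finset.mem_image] at h
      obtain ⟨S, hS, h⟩ := h
      rw [Finset.mem_filter] at hS
      exact ⟨S, hS.1, hS.2.1, hS.2.2, h.symm⟩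
  have hvis : ∀ S ∈ 𝒮, ∀ c ∈ E, x S < c → (c ∈ S ↔ s c ≤ P S) := by
    intro S hS c _ hxc
    constructor
    · intro h; exact hsP S hS c hxc h
    · intro h
      have h1 := (hPlt S hS c).mpr hxc
      obtain ⟨S0, hS0, h2, h3, h4⟩ := hsex c (by omega)
      by_contra hcS
      have h5 := (hx S0 hS0).2.1
      have h6 := (hx S hS).2.1
      have := hKP S hS S0 hS0 (hKlf S0 hS0 S hS c h3 hcS (by omega) (by omega))
      omega
  refine ⟨x, P, s, B, hBpos, hx, hPlt, hPle, hsle, hvis, ?_⟩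
  intro c hc c' hc' hcc hss hle
  obtain ⟨S, hS, hxS, hcS, hsc⟩ := hsex c (by omega)
  have hlt : c * B < c' * B := Nat.mul_lt_mul_of_pos_right hcc hBpos
  obtain ⟨S', hS', hxS', hcS', hsc'⟩ := hsex c' (by omega)
  have hxS'c : x S' < c := (hPle S' hS' c).mp (by omega)
  have hcinS' : c ∈ S' := (hvis S' hS' c hc hxS'c).mpr (by omega)
  have hc'notS : c' ∉ S := by
    intro h
    have := hsP S hS c' (by omega) h
    omega
  have hX' := hx S' hS'
  have : ¬ ∀ e ∈ E, vL S' ≤ e → e ≤ c → e ∈ S' := by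
    intro hall
    have := hX'.2.2.2 c (by have := hX'.2.1; omega) hc hall
    omega
  push Not at this
  obtain ⟨d, hd, hd1, hd2, hd3⟩ := this
  have hdc : d ≠ c := fun h => hd3 (h ▸ hcinS')
  have hdv : vL S' ≠ d := fun h => hd3 (h ▸ hlf.memL S' hS')
  have hKK : K S < K S' := hPK S hS S' hS' (by omega)
  have hvv := hKv S hS S' hS' hKK.le
  have hdS : d ∉ S := by
    intro h
    have := hKlf S hS S' hS' d h hd3 (by omega) (by omega)
    omega
  rw [hE, Finset.mem_biUnion] at hd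
  obtain ⟨D, hD, hdD⟩ := hd
  have hdD' : d ∈ D := hdD
  have hng := hlf.ng S' hS' D hD d hdD' hd3 (by omega)
  have hcD : c ∈ D := by
    by_contra h
    have := hng c hcinS' h
    omega
  have hc'D : c' ∈ D := by
    by_contra h
    have := hng c' hcS' h
    omega
  exact hstar D hD S hS d hdD' hdS c' hc'D hc'notS (by omega) c hcS ⟨by omega, hcc⟩

end Pool.BD
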