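import Pool.Agent.H56.BD.StmtsT

/-!
# Module W2: the invariant of the walk is preserved
-/

set_option autoImplicit false

namespace Pool.BD

open Relation

namespace W2

variable {V : Type} {G : SimpleGraph V} {rk : V → ℕ} {H : Set V} {q : V} {Q : Set V} {L R : Ct V}
  {b : V}

theorem rkq (h : NH G rk H q Q L R) {x : V} (hx : x ∈ H) : rk q ≤ rk x :=
  Anc.rank h.ok.parL (h.ok.isL.root_anc h.ok.parL x hx)

/-- an out-arc inside the hub is a dart -/
theorem dn_out (h : NH G rk H q Q L R) {u v : V} (hu : u ∈ H) (hv : v ∈ H) (ha : Ar G rk u v) :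
    Dn G H q Q L u v :=
  ⟨hu, ha.1, fun he => h.ok.isL.QH v hv (he ▸ ha.1), fun hq he => by
    have := h.ok.parL u hu hq
    have := ha.2
    rw [he] at this
    omega⟩

/-- an in-arc inside the hub from a vertex other than the parent is a dart -/
theorem dn_in (h : NH G rk H q Q L R) {u v : V} (hu : u ∈ H) (hv : v ∈ H) (ha : Ar G rk u v)
    (hp : L.par v ≠ u) : Dn G H q Q L v u :=
  ⟨hv, ha.1.symm, fun he => h.ok.isL.QH u hu (he ▸ ha.1.symm), fun _ he => hp he.symm⟩

theorem nch_in (h : NH G rk H q Q L R) {u v : V} (hu : u ∈ H) (ha : Ar G rk u v) :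
    ¬ Ch H q L v u := fun hc => by
  have := h.ok.parL u hu hc.2.1
  rw [hc.2.2] at this
  have := ha.2
  omega

theorem ed_ge (h : NH G rk H q Q L R) {x w : V} : L.pos x w ≤ Ed H q L x w := by
  unfold Ed
  split_ifs with hc
  · have := (h.ok.isL.ch w hc.1 hc.2.1).2.2.1
    rw [hc.2.2] at this
    exact this
  · exact le_rfl

theorem ed_lt (h : NH G rk H q Q L R) {x w z : V} (hw : Dn G H q Q L x w)
    (hz : Dn G H q Q L x z) (hc : Ch H q L x z) (hlt : L.pos x w < L.pos x z) :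
    Ed H q L x w < L.lo z := by
  have h1 := h.ok.isL.sep x w z hw hz hlt
  unfold Ed
  split_ifs with hcw
  · exact h1.2.2 hcw hc
  · exact h1.2.1 hc

/-- the end of a state lies in the block -/
theorem bounds (h : NH G rk H q Q L R) {x w : V} {e : ℤ}
    (hinv : Inv G rk H q Q L (Ds G rk H b) b x w e) : L.lo x ≤ e ∧ e < L.hi x := by
  obtain ⟨hxD, hcov, hcase⟩ := hinv
  rcases hcase with ⟨h1, h2, h3⟩ | ⟨hxb, hwD, hxw, hdw, he, hbe⟩
  · subst h1
    rw [h3]
    exact ⟨le_rfl, h.ok.isL.lh x hxD.1⟩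
  · have h1 := h.ok.isL.dn x w hdw
    have h2 := ed_ge h (x := x) (w := w)
    refine ⟨by omega, ?_⟩
    rw [he]
    unfold Ed
    split_ifs with hc
    · have := (h.ok.isL.ch w hc.1 hc.2.1).2.2.2
      rw [hc.2.2] at this
      exact this
    · exact h1.2

/-- no landing dart at the end of a state -/
theorem no_eq (h : NH G rk H q Q L R) (hb : b ∈ H) {x w : V} {e : ℤ}
    (hinv : Inv G rk H q Q L (Ds G rk H b) b x w e) {y1 y2 : V} (hy1 : y1 ∈ H) (hy2 : y2 ∈ H)
    (ha : Ar G rk y1 y2) (hp : L.par y2 ≠ y1) : L.pos y2 y1 ≠ e := by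
  intro heq
  have hd := dn_in h hy1 hy2 ha hp
  have hn := nch_in h hy1 ha
  have hdn := h.ok.isL.dn _ _ hd
  obtain ⟨hxD, hcov, hcase⟩ := hinv
  rcases hcase with ⟨h1, h2, h3⟩ | ⟨hxb, hwD, hxw, hdw, he, hbe⟩
  · have hlb := h.ok.isL.lh b hb
    have h4 := h.ok.isL.dart_block h.ok.parL hd hn hb (by omega) (by omega)
    have h5 := h.ok.isL.anc_le h4
    omega
  · rw [he] at heq
    unfold Ed at heq
    split_ifs at heq with hc
    · have hlw := h.ok.isL.lh w hc.1
      have h4 := h.ok.isL.dart_block h.ok.parL hd hn hc.1 (by omega) (by omega)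
      have h5 := h.ok.isL.anc_le h4
      omega
    · have h4 := h.ok.isL.pos_inj h.ok.parL hd hn hdw hc heq
      have h5 := ha.2
      have h6 := hxw.2
      rw [h4.1, h4.2] at h5
      omega

/-- a landing dart of an arc of `D` in the block of `x` after `e` gives a dart to `D` at `x` after `e` -/
theorem land (h : NH G rk H q Q L R) {x w : V} {e : ℤ}
    (hinv : Inv G rk H q Q L (Ds G rk H b) b x w e) {y1 y2 : V} (hy1 : y1 ∈ Ds G rk H b)
    (hy2 : y2 ∈ Ds G rk H b) (ha : Ar G rk y1 y2) (hp : L.par y2 ≠ y1) (hlt : e < L.pos y2 y1)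
    (hle : L.pos y2 y1 ≤ L.hi x) :
    ∃ z ∈ Ds G rk H b, Dn G H q Q L x z ∧ e < L.pos x z ∧
      ∀ g, Dn G H q Q L x g → ¬ Ch H q L x g → L.pos y2 y1 < L.pos x g → L.pos x z < L.pos x g := by
  have hbd := bounds h hinv
  have hd := dn_in h hy1.1 hy2.1 ha hp
  have hn := nch_in h hy1.1 ha
  obtain ⟨hxD, hcov, hcase⟩ := hinv
  by_cases hx : x = y2
  · subst hx
    exact ⟨y1, hy1, hd, hlt, fun g _ _ hg => hg⟩
  · have h1 := h.ok.isL.dart_block h.ok.parL hd hn hxD.1 (by omega) hle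
    obtain ⟨c, hc1, hc2, hc3, hc4⟩ := h1.head hx
    have hdc := h.ok.isL.ch_dn h.ok.parL hc1 hc2
    rw [hc3] at hdc
    have hch : Ch H q L x c := ⟨hc1, hc2, hc3⟩
    have hblk := h.ok.isL.anc_le hc4
    have hdy := h.ok.isL.dn _ _ hd
    have hcD : c ∈ Ds G rk H b := ⟨hc1, (Anc.reach h.ok.isL h.ok.parL hc4).trans hy2.2⟩
    have hcc := h.ok.isL.ch c hc1 hc2
    rw [hc3] at hcc
    refine ⟨c, hcD, hdc, ?_, ?_⟩
    · by_contra hcon
      rcases hcase with ⟨h2, h3, h4⟩ | ⟨hxb, hwD, hxw, hdw, he, hbe⟩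
      · have := h.ok.isL.dn _ _ hdc
        rw [h2] at this
        rw [h2] at hcon
        omega
      · rcases lt_trichotomy (L.pos x w) (L.pos x c) with h5 | h5 | h5
        · have := ed_lt h hdw hdc hch h5
          omega
        · have h6 := h.ok.isL.inj x w c hdw hdc h5
          subst h6
          have h7 : Ed H q L x w = L.hi w := by unfold Ed; rw [if_pos hch]
          omega
        · have h6 := (h.ok.isL.sep x c w hdc hdw h5).1 hch
          have h7 := ed_ge h (x := x) (w := w)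
          omega
    · intro g hg hgn hlg
      rcases lt_trichotomy (L.pos x c) (L.pos x g) with h5 | h5 | h5
      · exact h5
      · have h6 := h.ok.isL.inj x c g hdc hg h5
        exact absurd (h6 ▸ hch) hgn
      · have h6 := (h.ok.isL.sep x g c hg hdc h5).2.1 hch
        omega

end W2

theorem w2 (hw1 : W1) : W2 := by
  intro V G rk H q Q L R b h hsp x w e hinv g hnxt
  have hbd := W2.bounds h hinv
  have hbH : b ∈ H := hsp.1
  have hxD := hinv.1
  have hcov := hinv.2.1
  have hhib : x = b ∨ L.hi b ≤ e := by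
    rcases hinv.2.2 with ⟨h1, _, _⟩ | ⟨_, _, _, _, _, h1⟩
    · exact Or.inl h1
    · exact Or.inr h1
  rcases hnxt with ⟨hgD, hdg, heg, hmin⟩ | ⟨hno, hxq, hgp⟩
  · -- next dart after `e`
    have har : Ar G rk g x := hw1 V G rk H q Q L R b h hsp x w e hinv g hgD hdg heg
    have hrk := har.2
    have hxq : x ≠ q := fun hh => by
      have := W2.rkq h hgD.1
      rw [hh] at hrk
      omega
    have hpx : L.par x ≠ g := fun hh => hdg.2.2.2 hxq hh.symm
    have hnxg : ¬ Ch H q L x g := W2.nch_in h hgD.1 har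
    have hleft := h.ok.left g hgD.1 x hxD.1 har hpx
    have hdgx : Dn G H q Q L g x := W2.dn_out h hgD.1 hxD.1 har
    have hngx : ¬ Ch H q L g x := fun hc => hpx hc.2.2
    have hed : Ed H q L g x = L.pos g x := by unfold Ed; rw [if_neg hngx]
    have hgb : g ≠ b := fun hh => by
      have := hxD.2.rank
      rw [hh] at hrk
      omega
    refine ⟨⟨hgD, ?_, Or.inr ⟨hgb, hxD, har, hdgx, rfl, ?_⟩⟩, har⟩
    · rw [hed]
      rintro ⟨y1, hy1, y2, hy2, hay, hpy, hl1, hl2⟩
      have hd21 := W2.dn_in h hy1.1 hy2.1 hay hpy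
      have hn21 := W2.nch_in h hy1.1 hay
      have hd12 := W2.dn_out h hy1.1 hy2.1 hay
      have hn12 : ¬ Ch H q L y1 y2 := fun hc => hpy hc.2.2
      have hdxg := h.ok.isL.dn _ _ hdg
      have hnc := h.ok.isL.nc H (le_refl _) h.ok.isL.qH (fun v hv hq => (h.ok.isL.par v hv hq).1)
        ∅ ∅ (Set.disjoint_empty _) (x, g) (g, x) (y2, y1) (y1, y2)
        ⟨hxD.1, hdg, fun hc => hnxg hc.1⟩ ⟨hgD.1, hdgx, fun hc => hngx hc.1⟩
        ⟨hy2.1, hd21, fun hc => hn21 hc.1⟩ ⟨hy1.1, hd12, fun hc => hn12 hc.1⟩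
        (Or.inl ⟨rfl, hgD.1, rfl⟩) (Or.inl ⟨rfl, hy1.1, rfl⟩)
      simp only at hnc
      have hne : L.pos y2 y1 ≠ L.pos x g := by
        intro hh
        have := h.ok.isL.pos_inj h.ok.parL hd21 hn21 hdg hnxg hh
        rw [this.1, this.2] at hl2
        omega
      have hlt : L.pos y2 y1 < L.pos x g := by
        by_contra hcon
        exact hnc ⟨by omega, hl1, hl2⟩
      rcases lt_trichotomy (L.pos y2 y1) e with h1 | h1 | h1
      · exact hcov ⟨y1, hy1, y2, hy2, hay, hpy, h1, by omega⟩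
      · exact W2.no_eq h hbH hinv hy1.1 hy2.1 hay hpy h1
      · obtain ⟨z, hz, hdz, hez, hzg⟩ := W2.land h hinv hy1 hy2 hay hpy h1 (by omega)
        have h2 := hmin z hz hdz hez
        have h3 := hzg g hdg hnxg hlt
        omega
    · rw [hed]
      rcases hhib with h1 | h1
      · subst h1
        by_contra hcon
        have h2 := h.ok.isL.dart_block h.ok.parL hdgx hngx hbH (by omega) (by omega)
        have h3 := Anc.rank h.ok.parL h2
        omega
      · omega
  · -- the parent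
    subst hgp
    have hpar := h.ok.isL.par x hxD.1 hxq
    have hrk := h.ok.parL x hxD.1 hxq
    have har : Ar G rk (L.par x) x := ⟨hpar.2, hrk⟩
    have hch : Ch H q L (L.par x) x := ⟨hxD.1, hxq, rfl⟩
    have hgD : L.par x ∈ Ds G rk H b := ⟨hpar.1, ReflTransGen.head har hxD.2⟩
    have hed : Ed H q L (L.par x) x = L.hi x := by unfold Ed; rw [if_pos hch]
    have hgb : L.par x ≠ b := fun hh => by
      have := hxD.2.rank
      rw [hh] at hrk
      omega
    refine ⟨⟨hgD, ?_, Or.inr ⟨hgb, hxD, har, h.ok.isL.ch_dn h.ok.parL hxD.1 hxq, rfl, ?_⟩⟩, har⟩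
    · rw [hed]
      rintro ⟨y1, hy1, y2, hy2, hay, hpy, hl1, hl2⟩
      rcases lt_trichotomy (L.pos y2 y1) e with h1 | h1 | h1
      · exact hcov ⟨y1, hy1, y2, hy2, hay, hpy, h1, by omega⟩
      · exact W2.no_eq h hbH hinv hy1.1 hy2.1 hay hpy h1
      · obtain ⟨z, hz, hdz, hez, _⟩ := W2.land h hinv hy1 hy2 hay hpy h1 hl1.le
        exact hno z hz hdz hez
    · rw [hed]
      rcases hhib with h1 | h1
      · rw [h1]
      · omega

end Pool.BD
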